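import Pool.Agent.DPRM.Basic

/-!
# Diophantine functions: binomial coefficients, factorials and products (by helper44)

Auxiliary results towards the DPRM theorem (every recursively enumerable set is Diophantine).
-/

namespace Pool.Agent.DPRM

open Dioph Finset

section arith

/-- Extraction of a binomial coefficient as a digit of `(u+1)^n` in base `u`. -/
theorem choose_eq (n k u : ℕ) (hu : 2 ^ n < u) :
    n.choose k = ((u + 1) ^ n / u ^ k) % u := by
  have hu0 : 0 < u := lt_of_le_of_lt (Nat.zero_le _) hu
  have hlt : ∀ j, n.choose j < u := fun j =>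
    lt_of_le_of_lt (Nat.choose_le_two_pow n j) hu
  have hexp : (u + 1) ^ n = ∑ j ∈ range (n + 1), u ^ j * n.choose j := by
    rw [add_pow]; simp
  have key : ∀ m k : ℕ, (∑ j ∈ range m, u ^ j * n.choose j) / u ^ k % u =
      if k < m then n.choose k else 0 := by
    intro m k
    have hsmall : ∀ q, ∑ j ∈ range q, u ^ j * n.choose j < u ^ q := by
      intro q
      induction q with
      | zero => simp
      | succ q ih =>
        rw [sum_range_succ, pow_succ]
        have h1 := hlt q
        have h2 : u ^ q * n.choose q + u ^ q ≤ u ^ q * u := by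
          rw [← Nat.mul_succ]; exact Nat.mul_le_mul_left _ h1
        omega
    split_ifs with h
    · obtain ⟨r, rfl⟩ := Nat.exists_eq_add_of_lt h
      have hsplit : ∑ j ∈ range (k + r + 1), u ^ j * n.choose j =
          ∑ j ∈ range k, u ^ j * n.choose j +
            u ^ k * (n.choose k + u * ∑ j ∈ range r, u ^ j * n.choose (k + 1 + j)) := by
        rw [show k + r + 1 = k + (r + 1) by ring, sum_range_add (fun j => u ^ j * n.choose j),
          sum_range_succ', mul_add, mul_sum, mul_sum]
        simp only [add_zero]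
        have : ∀ j, u ^ (k + (j + 1)) * n.choose (k + (j + 1)) =
            u ^ k * (u * (u ^ j * n.choose (k + 1 + j))) := by
          intro j
          rw [show k + (j + 1) = k + 1 + j by ring]
          ring
        simp only [this]
        ring
      rw [hsplit, Nat.add_mul_div_left _ _ (by positivity), Nat.div_eq_of_lt (hsmall k), zero_add,
        Nat.add_mul_mod_self_left, Nat.mod_eq_of_lt (hlt k)]
    · push Not at h
      rw [Nat.div_eq_of_lt (lt_of_lt_of_le (hsmall m) (Nat.pow_le_pow_right hu0 h)), Nat.zero_mod]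
  rw [hexp, key]
  split_ifs with h
  · rfl
  · exact Nat.choose_eq_zero_of_lt (by omega)

theorem bernoulli_aux (n r : ℕ) (hn : n ≤ r) (m : ℕ) :
    r ^ m * r ≤ (r - n) ^ m * r + m * n * r ^ m := by
  induction m with
  | zero => simp
  | succ m ih =>
    obtain ⟨d, rfl⟩ := Nat.exists_eq_add_of_le hn
    rw [Nat.add_sub_cancel_left] at *
    have h1 : d ^ m ≤ (n + d) ^ m := Nat.pow_le_pow_left (Nat.le_add_left _ _) m
    calc (n + d) ^ (m + 1) * (n + d) = (n + d) * ((n + d) ^ m * (n + d)) := by ring
      _ ≤ (n + d) * (d ^ m * (n + d) + m * n * (n + d) ^ m) := Nat.mul_le_mul_left _ ih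
      _ = d ^ (m + 1) * (n + d) + n * (n + d) * d ^ m + m * n * (n + d) ^ (m + 1) := by ring
      _ ≤ d ^ (m + 1) * (n + d) + n * (n + d) * (n + d) ^ m + m * n * (n + d) ^ (m + 1) := by
          gcongr
      _ = d ^ (m + 1) * (n + d) + (m + 1) * n * (n + d) ^ (m + 1) := by ring

/-- The factorial as a quotient. -/
theorem factorial_eq (n r : ℕ) (hr : n * n * (n.factorial + 1) < r) :
    n.factorial = r ^ n / r.choose n := by
  have hn : n ≤ r := by
    have : n ≤ n * n * (n.factorial + 1) := by
      rcases Nat.eq_zero_or_pos n with h | h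
      · simp [h]
      · calc n = n * 1 * 1 := by ring
          _ ≤ n * n * (n.factorial + 1) := by gcongr <;> omega
    omega
  have hpos : 0 < r.choose n := Nat.choose_pos hn
  symm
  rw [Nat.div_eq_iff hpos]
  have hdesc : r.descFactorial n = n.factorial * r.choose n :=
    Nat.descFactorial_eq_factorial_mul_choose r n
  have h1 : r.descFactorial n ≤ r ^ n := Nat.descFactorial_le_pow r n
  have h2 : (r - n) ^ n ≤ r.descFactorial n :=
    le_trans (Nat.pow_le_pow_left (by omega) n) (Nat.pow_sub_le_descFactorial r n)
  have h3 : r ^ n * r ≤ (r - n) ^ n * r + n * n * r ^ n := bernoulli_aux n r hn n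
  have h4 : r ^ n * r ≤ r.descFactorial n * r + n * n * r ^ n :=
    le_trans h3 (by gcongr)
  have hr0 : 0 < r := by omega
  have hrn : 0 < r ^ n := by positivity
  have h5 : n.factorial * r ^ n < (n.factorial + 1) * r.descFactorial n := by
    have h6 : (n.factorial + 1) * (r ^ n * r) ≤
        (n.factorial + 1) * (r.descFactorial n * r + n * n * r ^ n) := Nat.mul_le_mul_left _ h4
    have h7 : n * n * (n.factorial + 1) * r ^ n < r * r ^ n := Nat.mul_lt_mul_of_pos_right hr hrn
    have h8 : r * (n.factorial * r ^ n) < r * ((n.factorial + 1) * r.descFactorial n) := by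
      nlinarith
    exact Nat.lt_of_mul_lt_mul_left h8
  constructor
  · rw [← hdesc]; exact h1
  · have h9 : n.factorial * r ^ n < n.factorial * ((n.factorial + 1) * r.choose n) := by
      calc n.factorial * r ^ n < (n.factorial + 1) * r.descFactorial n := h5
        _ = n.factorial * ((n.factorial + 1) * r.choose n) := by rw [hdesc]; ring
    have h10 := Nat.lt_of_mul_lt_mul_left h9
    rw [Nat.add_mul, Nat.one_mul] at h10
    omega

/-- The product `∏_{k<y} (1 + (k+1) t)` expressed through a binomial coefficient. -/
theorem prod_eq (y t : ℕ) (ht : 0 < t) :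
    ∏ k ∈ range y, (1 + (k + 1) * t) =
      (t ^ y * (y.factorial * ((t - 1) * (1 + t * y) ^ y + 1 + y).choose y)) %
        (t * (1 + t * y) ^ y + 1) := by
  set W := (1 + t * y) ^ y with hW
  set M := t * W + 1 with hM
  set q := (t - 1) * W + 1 with hq
  have hWpos : 0 < W := by positivity
  have hlt : ∏ k ∈ range y, (1 + (k + 1) * t) < M := by
    have h1 : ∏ k ∈ range y, (1 + (k + 1) * t) ≤ ∏ _k ∈ range y, (1 + t * y) := by
      apply prod_le_prod' 
      intro k hk
      rw [mem_range] at hk
      have : (k + 1) * t ≤ t * y := by rw [mul_comm]; exact Nat.mul_le_mul_left _ hk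
      omega
    rw [prod_const, card_range, ← hW] at h1
    have : W ≤ t * W := Nat.le_mul_of_pos_left _ ht
    omega
  have hasc : y.factorial * (q + y).choose y = (q + 1).ascFactorial y :=
    (Nat.ascFactorial_eq_factorial_mul_choose q y).symm
  have htq : t * q ≡ 1 [MOD M] := by
    obtain ⟨s, rfl⟩ := Nat.exists_eq_succ_of_ne_zero ht.ne'
    have : (s + 1) * q = s * M + 1 := by
      rw [hq, hM]; simp only [Nat.succ_eq_add_one, Nat.add_sub_cancel]; ring
    rw [Nat.succ_eq_add_one, this]
    exact (Nat.modEq_zero_iff_dvd.mpr ⟨s, by ring⟩).add_right 1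
  have hprod : t ^ y * (q + 1).ascFactorial y ≡ ∏ k ∈ range y, (1 + (k + 1) * t) [MOD M] := by
    rw [Nat.ascFactorial_eq_prod_range]
    have : t ^ y * ∏ i ∈ range y, (q + 1 + i) = ∏ i ∈ range y, (t * q + (i + 1) * t) := by
      rw [← card_range y, ← prod_const, card_range, ← prod_mul_distrib]
      refine prod_congr rfl fun i _ => by ring
    rw [this]
    exact Nat.ModEq.prod fun i _ => htq.add_right _
  rw [hasc]
  have := hprod.symm
  rw [Nat.ModEq, Nat.mod_eq_of_lt hlt] at this
  exact this

end arith

section fns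

variable {α : Type} {f g : (α → ℕ) → ℕ}

theorem choose_dioph (df : DiophFn f) (dg : DiophFn g) :
    DiophFn fun v => (f v).choose (g v) := by
  have du : DiophFn fun v => 2 ^ f v + 1 := add_dioph (pow_dioph (const_dioph 2) df) (const_dioph 1)
  have : (fun v => (f v).choose (g v)) = fun v =>
      ((2 ^ f v + 1 + 1) ^ f v / (2 ^ f v + 1) ^ g v) % (2 ^ f v + 1) := by
    funext v
    exact choose_eq _ _ _ (Nat.lt_succ_self _)
  rw [this]
  exact mod_dioph (div_dioph (pow_dioph (add_dioph du (const_dioph 1)) df) (pow_dioph du dg)) du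

theorem factorial_dioph (df : DiophFn f) : DiophFn fun v => (f v).factorial := by
  have dr : DiophFn fun v => f v * f v * (f v ^ f v + 1) + 1 :=
    add_dioph (mul_dioph (mul_dioph df df) (add_dioph (pow_dioph df df) (const_dioph 1)))
      (const_dioph 1)
  have : (fun v => (f v).factorial) = fun v =>
      (f v * f v * (f v ^ f v + 1) + 1) ^ f v /
        (f v * f v * (f v ^ f v + 1) + 1).choose (f v) := by
    funext v
    refine factorial_eq _ _ ?_
    have := Nat.factorial_le_pow (f v)
    exact Nat.lt_succ_of_le (Nat.mul_le_mul_left _ (Nat.succ_le_succ this))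
  rw [this]
  exact div_dioph (pow_dioph dr df) (choose_dioph dr df)

theorem prod_succ_dioph (df : DiophFn f) (dg : DiophFn g) :
    DiophFn fun v => ∏ k ∈ range (f v), (1 + (k + 1) * (g v + 1)) := by
  have : (fun v => ∏ k ∈ range (f v), (1 + (k + 1) * (g v + 1))) = fun v =>
      ((g v + 1) ^ f v * ((f v).factorial *
        ((g v + 1 - 1) * (1 + (g v + 1) * f v) ^ f v + 1 + f v).choose (f v))) %
        ((g v + 1) * (1 + (g v + 1) * f v) ^ f v + 1) := by
    funext v
    exact prod_eq _ _ (Nat.succ_pos _)
  rw [this]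
  have d1 : DiophFn fun v => g v + 1 := add_dioph dg (const_dioph 1)
  have d2 : DiophFn fun v => (1 + (g v + 1) * f v) ^ f v :=
    pow_dioph (add_dioph (const_dioph 1) (mul_dioph d1 df)) df
  exact mod_dioph (mul_dioph (pow_dioph d1 df) (mul_dioph (factorial_dioph df)
    (choose_dioph (add_dioph (add_dioph (mul_dioph (sub_dioph d1 (const_dioph 1)) d2)
      (const_dioph 1)) df) df))) (add_dioph (mul_dioph d1 d2) (const_dioph 1))

theorem descFactorial_dioph (df : DiophFn f) (dg : DiophFn g) :
    DiophFn fun v => (f v).descFactorial (g v) := by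
  have : (fun v => (f v).descFactorial (g v)) = fun v =>
      (g v).factorial * (f v).choose (g v) := by
    funext v
    exact Nat.descFactorial_eq_factorial_mul_choose _ _
  rw [this]
  exact mul_dioph (factorial_dioph dg) (choose_dioph df dg)

theorem prod_dioph (df : DiophFn f) (dg : DiophFn g) :
    DiophFn fun v => ∏ k ∈ range (f v), (1 + (k + 1) * g v) := by
  refine congr_fn (f := fun v => if 0 < g v then
    ∏ k ∈ range (f v), (1 + (k + 1) * (g v - 1 + 1)) else 1) (ite_dioph (lt_dioph (const_fn 0) dg)
    (iff_dioph (le_dioph dg (const_fn 0)) fun v => not_lt)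
    (prod_succ_dioph df (sub_dioph dg (const_fn 1))) (const_fn 1)) fun v => ?_
  split_ifs with h
  · rw [Nat.sub_add_cancel h]
  · have : g v = 0 := by omega
    simp [this]

end fns

end Pool.Agent.DPRM
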