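import Mathlib

/-!
Convenience closure lemmas for Diophantine sets and functions, in higher-order style
(no de Bruijn indices): `α` is an arbitrary index type of parameters.
-/

set_option autoImplicit false

open Dioph

namespace Pool.Agent.DPRM

variable {α : Type}

/-- Existential quantification. -/
theorem exists_dioph {P : (α → ℕ) → ℕ → Prop}
    (h : Dioph {w : Option α → ℕ | P (fun i => w (some i)) (w none)}) :
    Dioph {v : α → ℕ | ∃ x, P v x} :=
  Dioph.ext (ex1_dioph h) fun _ => Iff.rfl

theorem and_dioph {P Q : (α → ℕ) → Prop} (hp : Dioph {v | P v}) (hq : Dioph {v | Q v}) :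
    Dioph {v | P v ∧ Q v} :=
  hp.inter hq

theorem or_dioph {P Q : (α → ℕ) → Prop} (hp : Dioph {v | P v}) (hq : Dioph {v | Q v}) :
    Dioph {v | P v ∨ Q v} :=
  hp.union hq

theorem iff_dioph {P Q : (α → ℕ) → Prop} (hp : Dioph {v | P v}) (h : ∀ v, Q v ↔ P v) :
    Dioph {v | Q v} :=
  Dioph.ext hp fun v => (h v).symm

theorem true_dioph : Dioph {_v : α → ℕ | True} :=
  of_no_dummies _ 0 fun v => by simp

/-- Substitution of Diophantine functions into a binary relation. -/
theorem comp2 {S : ℕ → ℕ → Prop} (d : Dioph {v : Vector3 ℕ 2 | S (v &0) (v &1)})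
    {f g : (α → ℕ) → ℕ} (df : DiophFn f) (dg : DiophFn g) : Dioph {v | S (f v) (g v)} :=
  dioph_comp2 df dg d

/-- A function whose graph is Diophantine (higher-order form). -/
theorem diophFn_of {f : (α → ℕ) → ℕ}
    (h : Dioph {w : Option α → ℕ | f (fun i => w (some i)) = w none}) : DiophFn f := h

theorem DiophFn.graph {f : (α → ℕ) → ℕ} (h : DiophFn f) :
    Dioph {w : Option α → ℕ | f (fun i => w (some i)) = w none} := h

/-- Weakening of a function. -/
theorem weaken {f : (α → ℕ) → ℕ} (h : DiophFn f) :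
    DiophFn (fun w : Option α → ℕ => f (fun i => w (some i))) :=
  reindex_diophFn some h

/-- Weakening of a relation. -/
theorem weaken_rel {P : (α → ℕ) → Prop} (h : Dioph {v | P v}) :
    Dioph {w : Option α → ℕ | P (fun i => w (some i))} :=
  reindex_dioph (Option α) some h

theorem var_dioph (i : α) : DiophFn fun v : α → ℕ => v i := proj_dioph i

theorem const_fn (n : ℕ) : DiophFn fun _ : α → ℕ => n := const_dioph n

theorem congr_fn {f g : (α → ℕ) → ℕ} (df : DiophFn f) (h : ∀ v, g v = f v) : DiophFn g := by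
  have : g = f := funext h
  rw [this]
  exact df

theorem forall_fin_dioph : ∀ {m : ℕ} {P : Fin m → (α → ℕ) → Prop}
    (_ : ∀ i, Dioph {v | P i v}), Dioph {v | ∀ i, P i v}
  | 0, _, _ => iff_dioph true_dioph fun v => by simp
  | m + 1, P, h => by
    have h1 := forall_fin_dioph (m := m) (P := fun i => P i.castSucc) fun i => h _
    refine iff_dioph (and_dioph h1 (h (Fin.last m))) fun v => ?_
    constructor
    · intro hv
      exact ⟨fun i => hv _, hv _⟩
    · rintro ⟨h1, h2⟩ i
      exact Fin.lastCases h2 h1 i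

/-- Definition by cases with two alternatives. -/
theorem ite_dioph {P : (α → ℕ) → Prop} [∀ v, Decidable (P v)] {f g : (α → ℕ) → ℕ}
    (hP : Dioph {v | P v}) (hN : Dioph {v | ¬ P v}) (df : DiophFn f) (dg : DiophFn g) :
    DiophFn fun v => if P v then f v else g v := by
  apply diophFn_of
  refine iff_dioph (or_dioph (and_dioph (weaken_rel hP)
    (eq_dioph (weaken df) (var_dioph none))) (and_dioph (weaken_rel hN)
    (eq_dioph (weaken dg) (var_dioph none)))) fun v => ?_
  by_cases h : P (fun i => v (some i))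
  · simp [h]
  · simp [h]

theorem pair_dioph {f g : (α → ℕ) → ℕ} (df : DiophFn f) (dg : DiophFn g) :
    DiophFn fun v => Nat.pair (f v) (g v) := by
  unfold Nat.pair
  refine ite_dioph (lt_dioph df dg) ?_ (add_dioph (mul_dioph dg dg) df)
    (add_dioph (add_dioph (mul_dioph df df) df) dg)
  exact iff_dioph (le_dioph dg df) fun v => not_lt

theorem unpair_fst_dioph {f : (α → ℕ) → ℕ} (df : DiophFn f) :
    DiophFn fun v => (Nat.unpair (f v)).1 := by
  apply diophFn_of
  refine iff_dioph (exists_dioph (P := fun w b => Nat.pair (w none) b = f (fun i => w (some i)))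
    (eq_dioph (pair_dioph (var_dioph (some none)) (var_dioph none)) (weaken (weaken df))))
    fun v => ?_
  constructor
  · intro h
    refine ⟨(Nat.unpair (f fun i => v (some i))).2, ?_⟩
    rw [← h, Nat.pair_unpair]
  · rintro ⟨b, hb⟩
    rw [← hb, Nat.unpair_pair]

theorem unpair_snd_dioph {f : (α → ℕ) → ℕ} (df : DiophFn f) :
    DiophFn fun v => (Nat.unpair (f v)).2 := by
  apply diophFn_of
  refine iff_dioph (exists_dioph (P := fun w b => Nat.pair b (w none) = f (fun i => w (some i)))
    (eq_dioph (pair_dioph (var_dioph none) (var_dioph (some none))) (weaken (weaken df))))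
    fun v => ?_
  constructor
  · intro h
    refine ⟨(Nat.unpair (f fun i => v (some i))).1, ?_⟩
    rw [← h, Nat.pair_unpair]
  · rintro ⟨b, hb⟩
    rw [← hb, Nat.unpair_pair]

theorem beta_dioph {f g : (α → ℕ) → ℕ} (df : DiophFn f) (dg : DiophFn g) :
    DiophFn fun v => Nat.beta (f v) (g v) := by
  unfold Nat.beta
  exact mod_dioph (unpair_fst_dioph df) (add_dioph (mul_dioph (add_dioph dg (const_fn 1))
    (unpair_snd_dioph df)) (const_fn 1))

/-- Every Diophantine set is defined by a polynomial with finitely many unknowns. -/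
theorem exists_fin_dummies {S : Set (α → ℕ)} (h : Dioph S) :
    ∃ (m : ℕ) (p : Poly (α ⊕ Fin m)), ∀ v, v ∈ S ↔ ∃ t : Fin m → ℕ, p (Sum.elim v t) = 0 := by
  classical
  obtain ⟨β, q, hq⟩ := h
  -- `q` depends on finitely many unknowns only
  have hfin : ∀ r : Poly (α ⊕ β), ∃ s : Finset β, ∀ (v : α → ℕ) (t t' : β → ℕ),
      (∀ b ∈ s, t b = t' b) → r (Sum.elim v t) = r (Sum.elim v t') := by
    intro r
    induction r using Poly.induction with
    | H1 i =>
      rcases i with i | i
      · exact ⟨∅, fun v t t' _ => rfl⟩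
      · refine ⟨{i}, fun v t t' h => ?_⟩
        simp only [Poly.proj_apply, Sum.elim_inr]
        rw [h i (Finset.mem_singleton_self i)]
    | H2 n => exact ⟨∅, fun v t t' _ => rfl⟩
    | H3 f g hf hg =>
      obtain ⟨s₁, h₁⟩ := hf
      obtain ⟨s₂, h₂⟩ := hg
      refine ⟨s₁ ∪ s₂, fun v t t' h => ?_⟩
      rw [Poly.sub_apply, Poly.sub_apply, h₁ v t t' fun b hb => h b (Finset.mem_union_left _ hb),
        h₂ v t t' fun b hb => h b (Finset.mem_union_right _ hb)]
    | H4 f g hf hg =>
      obtain ⟨s₁, h₁⟩ := hf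
      obtain ⟨s₂, h₂⟩ := hg
      refine ⟨s₁ ∪ s₂, fun v t t' h => ?_⟩
      rw [Poly.mul_apply, Poly.mul_apply, h₁ v t t' fun b hb => h b (Finset.mem_union_left _ hb),
        h₂ v t t' fun b hb => h b (Finset.mem_union_right _ hb)]
  obtain ⟨s, hs⟩ := hfin q
  let e : s ≃ Fin s.card := s.equivFin
  let g : β → Fin (s.card + 1) := fun b =>
    if hb : b ∈ s then (e ⟨b, hb⟩).castSucc else Fin.last _
  refine ⟨s.card + 1, q.map (Sum.map id g), fun v => ?_⟩
  rw [hq v]
  constructor
  · rintro ⟨t, ht⟩
    refine ⟨fun i => if hi : i.val < s.card then t (e.symm ⟨i.val, hi⟩).1 else 0, ?_⟩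
    rw [Poly.map_apply, ← ht, Sum.elim_comp_map]
    refine hs v _ _ fun b hb => ?_
    have : g b = (e ⟨b, hb⟩).castSucc := by
      simp only [g, dif_pos hb]
    simp only [Function.comp_apply, this, Fin.val_castSucc, Fin.is_lt, dif_pos, Fin.eta,
      Equiv.symm_apply_apply]
  · rintro ⟨t, ht⟩
    refine ⟨t ∘ g, ?_⟩
    rw [Poly.map_apply, Sum.elim_comp_map] at ht
    exact ht

end Pool.Agent.DPRM
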