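import Pool.Agent.DPRM.Core
import Pool.Agent.DPRM.Arith

/-!
Diophantine sets are closed under bounded universal quantification.
-/

set_option autoImplicit false

open Dioph

namespace Pool.Agent.DPRM

/-- A polynomial is congruent to itself at congruent arguments. -/
theorem poly_congr {γ : Type} (p : Poly γ) (N : ℕ) (w w' : γ → ℕ)
    (h : ∀ i, w i ≡ w' i [MOD N]) : p w ≡ p w' [ZMOD N] := by
  induction p using Poly.induction with
  | H1 i =>
    simp only [Poly.proj_apply]
    exact (Int.natCast_modEq_iff).2 (h i)
  | H2 n => exact Int.ModEq.refl _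
  | H3 f g hf hg => 
    rw [Poly.sub_apply, Poly.sub_apply]
    exact hf.sub hg
  | H4 f g hf hg =>
    rw [Poly.mul_apply, Poly.mul_apply]
    exact hf.mul hg

/-- A polynomial has a monotone polynomial majorant. -/
theorem poly_bound {γ : Type} (p : Poly γ) :
    ∃ q : Poly γ, ∀ w w' : γ → ℕ, (∀ i, w i ≤ w' i) → |p w| ≤ q w' := by
  induction p using Poly.induction with
  | H1 i =>
    refine ⟨Poly.proj i, fun w w' h => ?_⟩
    simp only [Poly.proj_apply, Nat.abs_cast, Nat.cast_le]
    exact h i
  | H2 n => exact ⟨Poly.const |n|, fun w w' h => le_refl _⟩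
  | H3 f g hf hg =>
    obtain ⟨F, hF⟩ := hf
    obtain ⟨G, hG⟩ := hg
    refine ⟨F + G, fun w w' h => ?_⟩
    rw [Poly.sub_apply, Poly.add_apply]
    calc |f w - g w| ≤ |f w| + |g w| := abs_sub _ _
      _ ≤ F w' + G w' := add_le_add (hF w w' h) (hG w w' h)
  | H4 f g hf hg =>
    obtain ⟨F, hF⟩ := hf
    obtain ⟨G, hG⟩ := hg
    refine ⟨F * G, fun w w' h => ?_⟩
    rw [Poly.mul_apply, Poly.mul_apply, abs_mul]
    exact mul_le_mul (hF w w' h) (hG w w' h) (abs_nonneg _)
      ((abs_nonneg _).trans (hF w w' h))

variable {α : Type}

/-- Bounded universal quantification, variable bound. -/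
theorem ball_dioph_aux {S : Set (Option α → ℕ)} (h : Dioph S) :
    Dioph {w : Option α → ℕ | ∀ k < w none, Option.elim' k (fun i => w (some i)) ∈ S} := by
  obtain ⟨m, p, hp⟩ := exists_fin_dummies h
  obtain ⟨q, hq⟩ := poly_bound p
  -- the majorant
  let B : (Option α → ℕ) → ℕ → ℕ := fun w u => (q (Sum.elim w fun _ => u)).natAbs
  have key : ∀ w : Option α → ℕ,
      (∀ k < w none, Option.elim' k (fun i => w (some i)) ∈ S) ↔
      ∃ u c : ℕ, ∃ a : Fin m → ℕ,
        bigM ((B w u + w none).factorial) (w none) ∣ (c + 1) * (B w u + w none).factorial + 1 ∧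
        (∀ i, bigM ((B w u + w none).factorial) (w none) ∣ (a i).descFactorial (u + 1)) ∧
        bigM ((B w u + w none).factorial) (w none) ∣
          (p (Sum.elim (Option.elim' c fun i => w (some i)) a)).natAbs := by
    intro w
    have hS : (∀ k < w none, Option.elim' k (fun i => w (some i)) ∈ S) ↔
        (∀ k < w none, ∃ t : Fin m → ℕ,
          (fun k t => p (Sum.elim (Option.elim' k fun i => w (some i)) t)) k t = 0) := by
      refine forall_congr' fun k => forall_congr' fun _ => ?_
      exact hp _
    rw [hS]
    refine core (fun k t => p (Sum.elim (Option.elim' k fun i => w (some i)) t)) (B w) (w none)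
      ?_ ?_
    · intro N c k a t hck hat
      apply poly_congr
      rintro ((_ | i) | i)
      · exact hck
      · exact Nat.ModEq.refl _
      · exact hat i
    · intro u k t hk htu
      have h1 := hq (Sum.elim (Option.elim' k fun i => w (some i)) t)
        (Sum.elim w fun _ => u) (by
          rintro ((_ | i) | i)
          · exact hk.le
          · exact le_refl _
          · exact htu i)
      have h2 : ((p (Sum.elim (Option.elim' k fun i => w (some i)) t)).natAbs : ℤ) ≤
          (B w u : ℤ) := by
        rw [Int.natCast_natAbs]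
        refine h1.trans ?_
        show _ ≤ (((q (Sum.elim w fun _ => u)).natAbs : ℕ) : ℤ)
        rw [Int.natCast_natAbs]
        exact le_abs_self _
      exact_mod_cast h2
  refine iff_dioph ?_ key
  refine exists_dioph (exists_dioph ?_)
  -- parameters: `v (some (some none))` is the bound, `v (some none) = u`, `v none = c`
  have hQ : ∀ {γ : Type} (f : Option α → γ) (g : γ), DiophFn (fun v : γ → ℕ =>
      B (fun i => v (f i)) (v g) + v (f none)) := by
    intro γ f g
    refine add_dioph ?_ (var_dioph _)
    refine congr_fn (abs_poly_dioph (q.map (Sum.elim f fun _ => g))) fun v => ?_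
    show (q (Sum.elim (fun i => v (f i)) fun _ => v g)).natAbs = _
    rw [Poly.map_apply]
    congr 2
    funext i
    rcases i with i | i <;> rfl
  refine iff_dioph (Dioph.ex_dioph (α := Option (Option (Option α))) (β := Fin m)
    (S := {v | 
      bigM ((B (fun i => v (Sum.inl (some (some i)))) (v (Sum.inl (some none))) +
          v (Sum.inl (some (some none)))).factorial) (v (Sum.inl (some (some none)))) ∣
        (v (Sum.inl none) + 1) *
          (B (fun i => v (Sum.inl (some (some i)))) (v (Sum.inl (some none))) +
          v (Sum.inl (some (some none)))).factorial + 1 ∧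
      (∀ i, bigM ((B (fun i => v (Sum.inl (some (some i)))) (v (Sum.inl (some none))) +
          v (Sum.inl (some (some none)))).factorial) (v (Sum.inl (some (some none)))) ∣
        (v (Sum.inr i)).descFactorial (v (Sum.inl (some none)) + 1)) ∧
      bigM ((B (fun i => v (Sum.inl (some (some i)))) (v (Sum.inl (some none))) +
          v (Sum.inl (some (some none)))).factorial) (v (Sum.inl (some (some none)))) ∣
        (p (Sum.elim (Option.elim' (v (Sum.inl none)) fun i => v (Sum.inl (some (some (some i)))))
          fun i => v (Sum.inr i))).natAbs}) ?_) fun v => Iff.rfl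
  have hF : DiophFn (fun v : (Option (Option (Option α)) ⊕ Fin m) → ℕ =>
      (B (fun i => v (Sum.inl (some (some i)))) (v (Sum.inl (some none))) +
          v (Sum.inl (some (some none)))).factorial) :=
    factorial_dioph (hQ (fun i => Sum.inl (some (some i))) (Sum.inl (some none)))
  have hM : DiophFn (fun v : (Option (Option (Option α)) ⊕ Fin m) → ℕ =>
      bigM ((B (fun i => v (Sum.inl (some (some i)))) (v (Sum.inl (some none))) +
          v (Sum.inl (some (some none)))).factorial) (v (Sum.inl (some (some none))))) := 
    prod_dioph (var_dioph _) hF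
  refine and_dioph ?_ (and_dioph (forall_fin_dioph fun i => ?_) ?_)
  · exact dvd_dioph hM (add_dioph (mul_dioph (add_dioph (var_dioph _) (const_fn 1)) hF)
      (const_fn 1))
  · exact dvd_dioph hM (descFactorial_dioph (var_dioph _) (add_dioph (var_dioph _) (const_fn 1)))
  · refine dvd_dioph hM ?_
    refine congr_fn (abs_poly_dioph (p.map (Sum.elim (Option.elim' (Sum.inl none)
      fun i => Sum.inl (some (some (some i)))) Sum.inr))) fun v => ?_
    rw [Poly.map_apply]
    congr 2
    funext i
    rcases i with (_ | i) | i <;> rfl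

/-- **Bounded universal quantification** preserves Diophantine sets. -/
theorem ball_dioph {P : (α → ℕ) → ℕ → Prop} {f : (α → ℕ) → ℕ} (df : DiophFn f)
    (h : Dioph {w : Option α → ℕ | P (fun i => w (some i)) (w none)}) :
    Dioph {v : α → ℕ | ∀ k < f v, P v k} := by
  have h1 := ball_dioph_aux h
  have h2 : Dioph {w : Option α → ℕ | ∀ k < w none, P (fun i => w (some i)) k} := h1
  exact Dioph.ext (diophFn_comp1 h2 df) fun v => Iff.rfl

end Pool.Agent.DPRM
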