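import Mathlib

/-!
The number theoretic core of the bounded universal quantifier theorem.
-/

set_option autoImplicit false

namespace Pool.Agent.DPRM

open Finset

/-- The moduli `1 + (k+1) T`. -/
def modulus (T k : ℕ) : ℕ := 1 + (k + 1) * T

lemma modulus_pos (T k : ℕ) : 0 < modulus T k := by
  unfold modulus; positivity

/-- A prime dividing `1 + (k+1) Q!` is larger than `Q`. -/
lemma prime_gt {Q k π : ℕ} (hπ : π.Prime) (h : π ∣ modulus (Q.factorial) k) : Q < π := by
  by_contra hle
  push Not at hle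
  have h1 : π ∣ Q.factorial := (hπ.dvd_factorial).2 hle
  have h2 : π ∣ (k + 1) * Q.factorial := Dvd.dvd.mul_left h1 _
  have h3 : π ∣ 1 := by
    unfold modulus at h
    exact (Nat.dvd_add_left h2).1 h
  exact hπ.one_lt.ne' (Nat.dvd_one.1 h3)

lemma modulus_coprime {Q y k l : ℕ} (hy : y ≤ Q) (hk : k < y) (hl : l < y) (hkl : k ≠ l) :
    Nat.Coprime (modulus (Q.factorial) k) (modulus (Q.factorial) l) := by
  wlog hlt : k < l generalizing k l
  · exact (this hl hk hkl.symm (lt_of_le_of_ne (not_lt.1 hlt) hkl.symm)).symm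
  apply Nat.coprime_of_dvd
  intro π hπ h1 h2
  have hgt := prime_gt hπ h1
  unfold modulus at h1 h2
  have h3 : π ∣ (l - k) * Q.factorial := by
    have : 1 + (l + 1) * Q.factorial - (1 + (k + 1) * Q.factorial) = (l - k) * Q.factorial := by
      rw [Nat.sub_mul]
      have : (k + 1) * Q.factorial ≤ (l + 1) * Q.factorial :=
        Nat.mul_le_mul_right _ (by omega)
      rw [Nat.add_mul, Nat.add_mul]
      omega
    rw [← this]
    exact Nat.dvd_sub h2 h1
  rcases (hπ.dvd_mul).1 h3 with h4 | h4
  · have := Nat.le_of_dvd (by omega) h4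
    omega
  · have := (hπ.dvd_factorial).1 h4
    omega

/-- The combined modulus. -/
def bigM (T y : ℕ) : ℕ := ∏ k ∈ range y, modulus T k

lemma modulus_dvd_bigM {T y k : ℕ} (hk : k < y) : modulus T k ∣ bigM T y :=
  Finset.dvd_prod_of_mem _ (mem_range.2 hk)

lemma bigM_dvd {Q y z : ℕ} (hy : y ≤ Q)
    (h : ∀ k < y, modulus (Q.factorial) k ∣ z) : bigM (Q.factorial) y ∣ z := by
  unfold bigM
  apply Finset.prod_dvd_of_isRelPrime
  · intro k hk l hl hkl
    rw [Function.onFun, ← Nat.coprime_iff_isRelPrime]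
    exact modulus_coprime hy (mem_range.1 (by simpa using hk)) (mem_range.1 (by simpa using hl)) hkl
  · intro k hk
    exact h k (mem_range.1 hk)

/-- If a prime `π` divides `a (a-1) ... (a-u)`, then `a ≡ j mod π` for some `j ≤ u`. -/
lemma exists_residue {π a u : ℕ} (hπ : π.Prime) (h : π ∣ a.descFactorial (u + 1)) :
    ∃ j ≤ u, a ≡ j [MOD π] := by
  by_cases hau : a ≤ u
  · exact ⟨a, hau, rfl⟩
  · push Not at hau
    rw [Nat.descFactorial_eq_prod_range] at h
    obtain ⟨j, hj, hdvd⟩ := (hπ.prime.dvd_finsetProd_iff _).1 h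
    have hj' : j < u + 1 := mem_range.1 hj
    refine ⟨j, by omega, ?_⟩
    have : j ≤ a := by omega
    exact ((Nat.modEq_iff_dvd' this).2 hdvd).symm

/-- If `a ≡ j mod n` with `j ≤ u` then `n ∣ a (a-1) ... (a-u)`. -/
lemma dvd_desc_of_residue {n a u j : ℕ} (hj : j ≤ u) (h : a ≡ j [MOD n]) :
    n ∣ a.descFactorial (u + 1) := by
  by_cases hau : a ≤ u
  · rw [Nat.descFactorial_eq_zero_iff_lt.2 (by omega)]
    exact dvd_zero _
  · push Not at hau
    rw [Nat.descFactorial_eq_prod_range]
    have h1 : n ∣ a - j := (Nat.modEq_iff_dvd' (by omega)).1 h.symm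
    exact dvd_trans h1 (Finset.dvd_prod_of_mem _ (mem_range.2 (by omega)))

/-- **The core equivalence.** -/
theorem core {m : ℕ} (p : ℕ → (Fin m → ℕ) → ℤ) (B : ℕ → ℕ) (y : ℕ)
    (hcong : ∀ (N c k : ℕ) (a t : Fin m → ℕ), c ≡ k [MOD N] → (∀ i, a i ≡ t i [MOD N]) →
      p c a ≡ p k t [ZMOD N])
    (hbound : ∀ (u k : ℕ) (t : Fin m → ℕ), k < y → (∀ i, t i ≤ u) → (p k t).natAbs ≤ B u) :
    (∀ k < y, ∃ t, p k t = 0) ↔
      ∃ u c : ℕ, ∃ a : Fin m → ℕ,
        bigM ((B u + y).factorial) y ∣ (c + 1) * (B u + y).factorial + 1 ∧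
        (∀ i, bigM ((B u + y).factorial) y ∣ (a i).descFactorial (u + 1)) ∧
        bigM ((B u + y).factorial) y ∣ (p c a).natAbs := by
  constructor
  · intro h
    choose t ht using h
    -- a common bound
    let u := ∑ k ∈ (range y).attach, ∑ i, t k.1 (mem_range.1 k.2) i
    have hu : ∀ k (hk : k < y) i, t k hk i ≤ u := by
      intro k hk i
      calc t k hk i ≤ ∑ i, t k hk i :=
            Finset.single_le_sum (f := fun i => t k hk i) (fun _ _ => Nat.zero_le _) (mem_univ i)
        _ ≤ u := by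
            have := Finset.single_le_sum
              (f := fun k : {k // k ∈ range y} => ∑ i, t k.1 (mem_range.1 k.2) i)
              (fun _ _ => Nat.zero_le _) (mem_attach (range y) ⟨k, mem_range.2 hk⟩)
            exact this
    set Q := B u + y with hQ
    have hyQ : y ≤ Q := by omega
    have pp : Set.Pairwise (range y : Set ℕ)
        (Function.onFun Nat.Coprime (modulus (Q.factorial))) := by
      intro k hk l hl hkl
      exact modulus_coprime hyQ (mem_range.1 (by simpa using hk)) (mem_range.1 (by simpa using hl))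
        hkl
    have hne : ∀ k ∈ range y, modulus (Q.factorial) k ≠ 0 := fun k _ => (modulus_pos _ _).ne'
    obtain ⟨c, hc⟩ := Nat.chineseRemainderOfFinset (fun k => k) (modulus (Q.factorial)) (range y)
      hne pp
    have ha : ∀ i : Fin m, ∃ a, ∀ k (hk : k < y), a ≡ t k hk i [MOD modulus (Q.factorial) k] := by
      intro i
      obtain ⟨a, ha⟩ := Nat.chineseRemainderOfFinset
        (fun k => if hk : k < y then t k hk i else 0) (modulus (Q.factorial)) (range y) hne pp
      refine ⟨a, fun k hk => ?_⟩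
      have := ha k (mem_range.2 hk)
      simpa only [dif_pos hk] using this
    choose a ha using ha
    refine ⟨u, c, a, ?_, ?_, ?_⟩
    · apply bigM_dvd hyQ
      intro k hk
      have h1 := hc k (mem_range.2 hk)
      have h2 : (c + 1) * Q.factorial + 1 ≡ (k + 1) * Q.factorial + 1
          [MOD modulus (Q.factorial) k] :=
        Nat.ModEq.add_right _ (Nat.ModEq.mul_right _ (Nat.ModEq.add_right _ h1))
      have h3 : (k + 1) * Q.factorial + 1 = modulus (Q.factorial) k := by
        unfold modulus; ring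
      rw [h3] at h2
      exact (Nat.modEq_zero_iff_dvd).1 (h2.trans ((Nat.modEq_zero_iff_dvd).2 (dvd_refl _)))
    · intro i
      apply bigM_dvd hyQ
      intro k hk
      exact dvd_desc_of_residue (hu k hk i) (ha i k hk)
    · apply bigM_dvd hyQ
      intro k hk
      have h1 := hcong (modulus (Q.factorial) k) c k a (t k hk) (hc k (mem_range.2 hk))
        (fun i => ha i k hk)
      rw [ht k hk] at h1
      have := (Int.modEq_zero_iff_dvd).1 h1
      exact Int.natCast_dvd.1 this
  · rintro ⟨u, c, a, h1, h2, h3⟩ k hk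
    set Q := B u + y with hQ
    have hne1 : modulus (Q.factorial) k ≠ 1 := by
      unfold modulus
      have : 0 < (k + 1) * Q.factorial := by positivity
      omega
    obtain ⟨π, hπ, hπk⟩ := Nat.exists_prime_and_dvd hne1
    have hgt := prime_gt hπ hπk
    have hπM : π ∣ bigM (Q.factorial) y := hπk.trans (modulus_dvd_bigM hk)
    -- `c ≡ k`
    have hck : c ≡ k [MOD π] := by
      have h4 : π ∣ (c + 1) * Q.factorial + 1 := hπM.trans h1
      have h5 : π ∣ (k + 1) * Q.factorial + 1 := by
        have : (k + 1) * Q.factorial + 1 = modulus (Q.factorial) k := by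
          unfold modulus; ring
        rw [this]
        exact hπk
      have h6 : (c + 1) * Q.factorial + 1 ≡ (k + 1) * Q.factorial + 1 [MOD π] :=
        ((Nat.modEq_zero_iff_dvd).2 h4).trans ((Nat.modEq_zero_iff_dvd).2 h5).symm
      have h7 : (c + 1) * Q.factorial ≡ (k + 1) * Q.factorial [MOD π] :=
        Nat.ModEq.add_right_cancel' 1 h6
      have hcop : Nat.gcd π Q.factorial = 1 := by
        rw [← Nat.coprime_iff_gcd_eq_one, hπ.coprime_iff_not_dvd, hπ.dvd_factorial]
        omega
      have h8 : c + 1 ≡ k + 1 [MOD π] := Nat.ModEq.cancel_right_of_coprime hcop h7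
      exact Nat.ModEq.add_right_cancel' 1 h8
    have hres : ∀ i, ∃ j ≤ u, a i ≡ j [MOD π] := fun i => exists_residue hπ (hπM.trans (h2 i))
    choose t htu hta using hres
    refine ⟨t, ?_⟩
    have h4 := hcong π c k a t hck hta
    have h5 : (π : ℤ) ∣ p c a := Int.natCast_dvd.2 (hπM.trans h3)
    have h6 : (π : ℤ) ∣ p k t :=
      (Int.modEq_zero_iff_dvd).1 (h4.symm.trans ((Int.modEq_zero_iff_dvd).2 h5))
    have h7 : π ∣ (p k t).natAbs := Int.natCast_dvd.1 h6
    have h8 := hbound u k t hk htu
    by_contra hne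
    have h9 : 0 < (p k t).natAbs := Int.natAbs_pos.2 hne
    have := Nat.le_of_dvd h9 h7
    omega

end Pool.Agent.DPRM
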