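import Pool.Agent.DPRM.PartrecDioph

/-!
Elementary systems: finite lists of equations `x i = 1`, `x i + x j = x k`, `x i * x j = x k`,
coded as quadruples of natural numbers.
-/

set_option autoImplicit false

open Dioph

namespace Pool.Agent.DPRM

/-- The equation coded by the quadruple `(c, i, j, k)` holds at `x`:
`c = 0`: `x i = 1`; `c = 1`: `x i + x j = x k`; otherwise: `x i * x j = x k`. -/
def Holds {R : Type} [One R] [Add R] [Mul R] (x : ℕ → R) (e : ℕ × ℕ × ℕ × ℕ) : Prop :=
  if e.1 = 0 then x e.2.1 = 1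
  else if e.1 = 1 then x e.2.1 + x e.2.2.1 = x e.2.2.2
  else x e.2.1 * x e.2.2.1 = x e.2.2.2

/-- All variables of the equation have index below `N`. -/
def Below (N : ℕ) (e : ℕ × ℕ × ℕ × ℕ) : Prop := e.2.1 < N ∧ e.2.2.1 < N ∧ e.2.2.2 < N

lemma Holds.congr {R : Type} [One R] [Add R] [Mul R] {x y : ℕ → R} {N : ℕ}
    {e : ℕ × ℕ × ℕ × ℕ} (hb : Below N e) (h : ∀ i < N, y i = x i) :
    Holds y e ↔ Holds x e := by
  unfold Holds
  rw [h _ hb.1, h _ hb.2.1, h _ hb.2.2]

lemma Below.mono {N N' : ℕ} (h : N ≤ N') {e : ℕ × ℕ × ℕ × ℕ} (hb : Below N e) : Below N' e :=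
  ⟨hb.1.trans_le h, hb.2.1.trans_le h, hb.2.2.trans_le h⟩

@[simp] lemma holds_zero {R : Type} [One R] [Add R] [Mul R] (x : ℕ → R) (i j k : ℕ) :
    Holds x (0, i, j, k) ↔ x i = 1 := by simp [Holds]

@[simp] lemma holds_one {R : Type} [One R] [Add R] [Mul R] (x : ℕ → R) (i j k : ℕ) :
    Holds x (1, i, j, k) ↔ x i + x j = x k := by simp [Holds]

@[simp] lemma holds_two {R : Type} [One R] [Add R] [Mul R] (x : ℕ → R) (i j k : ℕ) :
    Holds x (2, i, j, k) ↔ x i * x j = x k := by simp [Holds]

/-- A block of equations computing things in terms of the variables below `N`, all of whose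
variables are below `N'`. -/
structure Block (N N' : ℕ) (E : List (ℕ × ℕ × ℕ × ℕ)) : Prop where
  le : N ≤ N'
  below : ∀ e ∈ E, Below N' e
  ext : ∀ x : ℕ → ℕ, ∃ x' : ℕ → ℕ, (∀ i < N, x' i = x i) ∧ ∀ e ∈ E, Holds x' e

lemma Block.append {N₀ N₁ N₂ : ℕ} {E F : List (ℕ × ℕ × ℕ × ℕ)} (h₁ : Block N₀ N₁ E)
    (h₂ : Block N₁ N₂ F) : Block N₀ N₂ (E ++ F) where
  le := h₁.le.trans h₂.le
  below := by
    intro e he
    rcases List.mem_append.1 he with he | he
    · exact (h₁.below e he).mono h₂.le
    · exact h₂.below e he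
  ext := by
    intro x
    obtain ⟨x', hx', hE⟩ := h₁.ext x
    obtain ⟨x'', hx'', hF⟩ := h₂.ext x'
    refine ⟨x'', fun i hi => (hx'' i (hi.trans_le h₁.le)).trans (hx' i hi), fun e he => ?_⟩
    rcases List.mem_append.1 he with he | he
    · exact (Holds.congr (h₁.below e he) hx'').2 (hE e he)
    · exact hF e he

lemma block_add (N i j : ℕ) (hi : i < N) (hj : j < N) : Block N (N + 1) [(1, i, j, N)] where
  le := Nat.le_succ N
  below := by
    intro e he
    rw [List.mem_singleton] at he
    subst he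
    exact ⟨by simp; omega, by simp; omega, by simp⟩
  ext := by
    intro x
    refine ⟨fun k => if k = N then x i + x j else x k, fun k hk => by simp [hk.ne], ?_⟩
    intro e he
    rw [List.mem_singleton] at he
    subst he
    simp [hi.ne, hj.ne]

lemma block_mul (N i j : ℕ) (hi : i < N) (hj : j < N) : Block N (N + 1) [(2, i, j, N)] where
  le := Nat.le_succ N
  below := by
    intro e he
    rw [List.mem_singleton] at he
    subst he
    exact ⟨by simp; omega, by simp; omega, by simp⟩
  ext := by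
    intro x
    refine ⟨fun k => if k = N then x i * x j else x k, fun k hk => by simp [hk.ne], ?_⟩
    intro e he
    rw [List.mem_singleton] at he
    subst he
    simp [hi.ne, hj.ne]

lemma block_zero (N : ℕ) : Block N (N + 1) [(1, N, N, N)] where
  le := Nat.le_succ N
  below := by
    intro e he
    rw [List.mem_singleton] at he
    subst he
    exact ⟨by simp, by simp, by simp⟩
  ext := by
    intro x
    refine ⟨fun k => if k = N then 0 else x k, fun k hk => by simp [hk.ne], ?_⟩
    intro e he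
    rw [List.mem_singleton] at he
    subst he
    simp

lemma block_one (N : ℕ) : Block N (N + 1) [(0, N, N, N)] where
  le := Nat.le_succ N
  below := by
    intro e he
    rw [List.mem_singleton] at he
    subst he
    exact ⟨by simp, by simp, by simp⟩
  ext := by
    intro x
    refine ⟨fun k => if k = N then 1 else x k, fun k hk => by simp [hk.ne], ?_⟩
    intro e he
    rw [List.mem_singleton] at he
    subst he
    simp

/-- A block forcing a variable to be the numeral `n`. -/
lemma block_const (n : ℕ) : ∀ N : ℕ, ∃ (N' : ℕ) (E : List (ℕ × ℕ × ℕ × ℕ)) (a : ℕ),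
    Block N N' E ∧ a < N' ∧ ∀ x : ℕ → ℕ, (∀ e ∈ E, Holds x e) → x a = n := by
  induction n with
  | zero =>
    intro N
    refine ⟨N + 1, _, N, block_zero N, Nat.lt_succ_self N, fun x hx => ?_⟩
    have := hx (1, N, N, N) (List.mem_singleton_self _)
    rw [holds_one] at this
    omega
  | succ n ih =>
    intro N
    obtain ⟨N₁, E, a, hE, ha, hn⟩ := ih N
    refine ⟨N₁ + 1 + 1, _, N₁ + 1, (hE.append (block_one N₁)).append
      (block_add (N₁ + 1) a N₁ (by omega) (by omega)), by omega, fun x hx => ?_⟩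
    have h1 := hn x fun e he => hx e (by simp [he])
    have h2 := hx (0, N₁, N₁, N₁) (by simp)
    have h3 := hx (1, a, N₁, N₁ + 1) (by simp)
    rw [holds_zero] at h2
    rw [holds_one] at h3
    omega

/-- A block computing a polynomial as a difference of two variables. -/
lemma block_poly {γ : Type} (ι : γ → ℕ) (N₀ : ℕ) (hι : ∀ g, ι g < N₀) (p : Poly γ) :
    ∀ N ≥ N₀, ∃ (N' : ℕ) (E : List (ℕ × ℕ × ℕ × ℕ)) (a b : ℕ),
      Block N N' E ∧ a < N' ∧ b < N' ∧
      ∀ x : ℕ → ℕ, (∀ e ∈ E, Holds x e) → p (fun g => x (ι g)) = (x a : ℤ) - x b := by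
  induction p using Poly.induction with
  | H1 g =>
    intro N hN
    obtain ⟨N', E, a, hE, ha, h⟩ := block_const 0 N
    refine ⟨N', E, ι g, a, hE, (hι g).trans_le (hN.le.trans hE.le), ha, fun x hx => ?_⟩
    rw [h x hx, Poly.proj_apply]
    simp
  | H2 n =>
    intro N hN
    obtain ⟨N₁, E, a, hE, ha, h⟩ := block_const n.toNat N
    obtain ⟨N₂, F, b, hF, hb, h'⟩ := block_const (-n).toNat N₁
    refine ⟨N₂, E ++ F, a, b, hE.append hF, ha.trans_le hF.le, hb, fun x hx => ?_⟩
    rw [h x fun e he => hx e (by simp [he]), h' x fun e he => hx e (by simp [he]),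
      Poly.const_apply]
    omega
  | H3 f g hf hg =>
    intro N hN
    obtain ⟨N₁, E, a, b, hE, ha, hb, h⟩ := hf N hN
    obtain ⟨N₂, F, c, d, hF, hc, hd, h'⟩ := hg N₁ (hN.le.trans hE.le)
    have e1 := hE.le
    have e2 := hF.le
    refine ⟨N₂ + 1 + 1, _, N₂, N₂ + 1, ((hE.append hF).append
      (block_add N₂ a d (by omega) (by omega))).append
      (block_add (N₂ + 1) b c (by omega) (by omega)), by omega, by omega, fun x hx => ?_⟩
    have h1 := h x fun e he => hx e (by simp [he])
    have h2 := h' x fun e he => hx e (by simp [he])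
    have h3 := hx (1, a, d, N₂) (by simp)
    have h4 := hx (1, b, c, N₂ + 1) (by simp)
    rw [holds_one] at h3 h4
    rw [Poly.sub_apply, h1, h2, ← h3, ← h4]
    push_cast
    ring
  | H4 f g hf hg =>
    intro N hN
    obtain ⟨N₁, E, a, b, hE, ha, hb, h⟩ := hf N hN
    obtain ⟨N₂, F, c, d, hF, hc, hd, h'⟩ := hg N₁ (hN.le.trans hE.le)
    have e1 := hE.le
    have e2 := hF.le
    refine ⟨N₂ + 1 + 1 + 1 + 1 + 1 + 1, _, N₂ + 1 + 1 + 1 + 1, N₂ + 1 + 1 + 1 + 1 + 1,
      ((((((hE.append hF).append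
      (block_mul N₂ a c (by omega) (by omega))).append
      (block_mul (N₂ + 1) b d (by omega) (by omega))).append
      (block_mul (N₂ + 1 + 1) a d (by omega) (by omega))).append
      (block_mul (N₂ + 1 + 1 + 1) b c (by omega) (by omega))).append
      (block_add (N₂ + 1 + 1 + 1 + 1) N₂ (N₂ + 1) (by omega) (by omega))).append
      (block_add (N₂ + 1 + 1 + 1 + 1 + 1) (N₂ + 1 + 1) (N₂ + 1 + 1 + 1) (by omega) (by omega)),
      by omega, by omega, fun x hx => ?_⟩
    have h1 := h x fun e he => hx e (by simp [he])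
    have h2 := h' x fun e he => hx e (by simp [he])
    have h3 := hx (2, a, c, N₂) (by simp)
    have h4 := hx (2, b, d, N₂ + 1) (by simp)
    have h5 := hx (2, a, d, N₂ + 1 + 1) (by simp)
    have h6 := hx (2, b, c, N₂ + 1 + 1 + 1) (by simp)
    have h7 := hx (1, N₂, N₂ + 1, N₂ + 1 + 1 + 1 + 1) (by simp)
    have h8 := hx (1, N₂ + 1 + 1, N₂ + 1 + 1 + 1, N₂ + 1 + 1 + 1 + 1 + 1) (by simp)
    rw [holds_two] at h3 h4 h5 h6
    rw [holds_one] at h7 h8
    rw [Poly.mul_apply, h1, h2, ← h8, ← h7, ← h3, ← h4, ← h5, ← h6]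
    push_cast
    ring

/-- Every Diophantine set in finitely many parameters `x 0, ..., x (k-1)` is defined by an
elementary system. -/
theorem dioph_elem {k : ℕ} {S : Set (Fin k → ℕ)} (hS : Dioph S) :
    ∃ (N : ℕ) (E : List (ℕ × ℕ × ℕ × ℕ)), k ≤ N ∧ (∀ e ∈ E, Below N e) ∧ ∀ v : Fin k → ℕ,
      v ∈ S ↔ ∃ x : ℕ → ℕ, (∀ i : Fin k, x i = v i) ∧ ∀ e ∈ E, Holds x e := by
  obtain ⟨m, p, hp⟩ := exists_fin_dummies hS
  let ι : Fin k ⊕ Fin m → ℕ := Sum.elim (fun i => i) (fun j => k + j)
  have hι : ∀ g, ι g < k + m := by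
    rintro (i | j)
    · exact i.2.trans_le (Nat.le_add_right _ _)
    · exact Nat.add_lt_add_left j.2 _
  obtain ⟨N₁, E, a, b, hE, ha, hb, h⟩ := block_poly ι (k + m) hι p (k + m) le_rfl
  have hz := block_zero N₁
  refine ⟨N₁ + 1, E ++ [(1, N₁, N₁, N₁)] ++ [(1, N₁, a, b)], ?_, ?_, fun v => ?_⟩
  · have := hE.le
    omega
  · intro e he
    rcases List.mem_append.1 he with he | he
    · exact (hE.append hz).below e he
    · rw [List.mem_singleton] at he
      subst he
      exact ⟨by simp, by simp; omega, by simp; omega⟩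
  rw [hp v]
  constructor
  · rintro ⟨t, ht⟩
    obtain ⟨x, hx, hxE⟩ := (hE.append hz).ext fun i =>
      if hi : i < k then v ⟨i, hi⟩ else if hj : i - k < m then t ⟨i - k, hj⟩ else 0
    have hv : ∀ i : Fin k, x i = v i := fun i => by
      rw [hx i (by omega)]
      simp
    have hval : (fun g => x (ι g)) = Sum.elim v t := by
      funext g
      rcases g with i | j
      · exact hv i
      · show x (k + j) = t j
        rw [hx (k + j) (by omega)]
        simp
    refine ⟨x, hv, fun e he => ?_⟩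
    rcases List.mem_append.1 he with he | he
    · exact hxE e he
    · rw [List.mem_singleton] at he
      subst he
      have h1 := h x fun e he => hxE e (by simp [he])
      have h2 := hxE (1, N₁, N₁, N₁) (by simp)
      rw [holds_one] at h2 ⊢
      rw [hval, ht] at h1
      omega
  · rintro ⟨x, hxv, hx⟩
    refine ⟨fun j => x (k + j), ?_⟩
    have h1 := h x fun e he => hx e (by simp [he])
    have h2 := hx (1, N₁, N₁, N₁) (by simp)
    have h3 := hx (1, N₁, a, b) (by simp)
    rw [holds_one] at h2 h3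
    have hval : (fun g => x (ι g)) = Sum.elim v fun j : Fin m => x (k + j) := by
      funext g
      rcases g with i | j
      · exact hxv i
      · rfl
    rw [← hval, h1]
    omega

end Pool.Agent.DPRM
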