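import Pool.Agent.DPRM.Undecidable

/-!
A fixed finite elementary system over the integers (resp. naturals) with one parameter and
undecidable solvability, in two codings of the equations.
-/

set_option autoImplicit false

namespace Pool.Agent.DPRM

/-- One fixed finite list of elementary equations over `ℤ`, parameter `x 0 = n`. -/
theorem fixed_elem_undecidable_int :
    ∃ E : List (ℕ × ℕ × ℕ × ℕ), ¬ ComputablePred fun n : ℕ =>
      ∃ x : ℕ → ℤ, x 0 = (n : ℤ) ∧ ∀ e ∈ E, Holds x e := by
  obtain ⟨E, hK⟩ := rePred_elem_int rePred_K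
  exact ⟨E, fun h => not_computable_K (h.of_eq fun a => (hK a).symm)⟩

/-- One fixed finite list of elementary equations over `ℕ`, parameter `x 0 = n`. -/
theorem fixed_elem_undecidable_nat :
    ∃ E : List (ℕ × ℕ × ℕ × ℕ), ¬ ComputablePred fun n : ℕ =>
      ∃ x : ℕ → ℕ, x 0 = n ∧ ∀ e ∈ E, Holds x e := by
  obtain ⟨N, E, -, -, hK⟩ := rePred_elem rePred_K
  exact ⟨E, fun h => not_computable_K (h.of_eq fun a => (hK a).symm)⟩

/-- Elementary equations. -/
inductive Elem : Type
  | one (i : ℕ)
  | add (i j k : ℕ)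
  | mul (i j k : ℕ)

/-- Truth of an elementary equation at an integer point. -/
def Elem.Holds (v : ℕ → ℤ) : Elem → Prop
  | .one i => v i = 1
  | .add i j k => v i + v j = v k
  | .mul i j k => v i * v j = v k

/-- Decoding of quadruples. -/
def toElem (e : ℕ × ℕ × ℕ × ℕ) : Elem :=
  if e.1 = 0 then .one e.2.1 else if e.1 = 1 then .add e.2.1 e.2.2.1 e.2.2.2
  else .mul e.2.1 e.2.2.1 e.2.2.2

lemma toElem_holds (v : ℕ → ℤ) (e : ℕ × ℕ × ℕ × ℕ) : (toElem e).Holds v ↔ Holds v e := by
  unfold toElem Holds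
  split_ifs <;> exact Iff.rfl

/-- One fixed finite list of elementary equations over `ℤ`, parameter `v 0 = n`. -/
theorem fixed_undecidable :
    ∃ E : List Elem, ¬ ComputablePred fun n : ℕ =>
      ∃ v : ℕ → ℤ, v 0 = (n : ℤ) ∧ ∀ e, e ∈ E → e.Holds v := by
  obtain ⟨E, hE⟩ := fixed_elem_undecidable_int
  refine ⟨E.map toElem, fun h => hE (h.of_eq fun n => exists_congr fun v =>
    and_congr_right fun _ => ?_)⟩
  simp only [List.mem_map, forall_exists_index, and_imp, forall_apply_eq_imp_iff₂, toElem_holds]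

end Pool.Agent.DPRM
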