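import Pool.Agent.DPRM.Elem

/-!
# The DPRM theorem and its undecidability corollaries

* `rePred_dioph`: every r.e. predicate on `ℕ` is Diophantine (Mathlib's `Dioph`).
* `rePred_mvPolynomial`, `rePred_mvPolynomial_int`: with `MvPolynomial`, unknowns in `ℕ` / `ℤ`.
* `rePred_elem`, `rePred_elem_int`: with elementary systems, unknowns in `ℕ` / `ℤ`.
* `exists_undecidable_mvPolynomial`, `exists_undecidable_mvPolynomial_int`: a fixed polynomial with
  one parameter whose solvability is not computable.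
* `elem_undecidable`, `elem_undecidable_int`: solvability of elementary systems is undecidable.
-/

set_option autoImplicit false

open Dioph

namespace Pool.Agent.DPRM

/-- Every recursively enumerable predicate on `ℕ` is Diophantine. -/
theorem rePred_dioph {p : ℕ → Prop} (hp : REPred p) {α : Type} {f : (α → ℕ) → ℕ}
    (df : DiophFn f) : Dioph {v : α → ℕ | p (f v)} := by
  have h1 : Partrec fun a : ℕ => (Part.assert (p a) fun _ => Part.some ()).map fun _ => (0 : ℕ) :=
    Partrec.map hp (Computable.const 0).to₂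
  have h2 := partrec_dioph (Partrec.nat_iff.1 h1)
  refine iff_dioph (h2.subst df (const_fn 0)) fun v => ?_
  rw [Part.mem_map_iff]
  constructor
  · intro h
    exact ⟨(), by rw [Part.assert_pos h]; exact Part.mem_some _, rfl⟩
  · rintro ⟨a, ha, -⟩
    obtain ⟨h, -⟩ := Part.mem_assert_iff.1 ha
    exact h

/-- A `Poly` is the evaluation of an `MvPolynomial`. -/
theorem poly_mvPolynomial {γ : Type} (p : Poly γ) :
    ∃ P : MvPolynomial γ ℤ, ∀ v : γ → ℕ, p v = MvPolynomial.eval (fun i => (v i : ℤ)) P := by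
  induction p using Poly.induction with
  | H1 i => exact ⟨MvPolynomial.X i, fun v => by simp⟩
  | H2 n => exact ⟨MvPolynomial.C n, fun v => by simp⟩
  | H3 f g hf hg =>
    obtain ⟨F, hF⟩ := hf
    obtain ⟨G, hG⟩ := hg
    exact ⟨F - G, fun v => by rw [Poly.sub_apply, hF, hG, map_sub]⟩
  | H4 f g hf hg =>
    obtain ⟨F, hF⟩ := hf
    obtain ⟨G, hG⟩ := hg
    exact ⟨F * G, fun v => by rw [Poly.mul_apply, hF, hG, map_mul]⟩

/-- DPRM with `MvPolynomial`, unknowns in `ℕ`. -/
theorem rePred_mvPolynomial {p : ℕ → Prop} (hp : REPred p) :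
    ∃ (m : ℕ) (P : MvPolynomial (Fin (m + 1)) ℤ), ∀ a : ℕ,
      p a ↔ ∃ t : Fin m → ℕ,
        MvPolynomial.eval (Fin.cons (a : ℤ) fun i => (t i : ℤ)) P = 0 := by
  have h := rePred_dioph hp (var_dioph (α := Fin 1) 0)
  obtain ⟨m, q, hq⟩ := exists_fin_dummies h
  obtain ⟨Q, hQ⟩ := poly_mvPolynomial q
  refine ⟨m, MvPolynomial.rename (Sum.elim (fun _ : Fin 1 => (0 : Fin (m + 1))) Fin.succ) Q,
    fun a => ?_⟩
  have h1 := hq (fun _ => a)
  simp only [Set.mem_ofPred_eq] at h1
  rw [h1]
  refine exists_congr fun t => ?_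
  rw [hQ, MvPolynomial.eval_rename]
  have : (fun i => ((Sum.elim (fun _ : Fin 1 => a) t i : ℕ) : ℤ)) =
      (Fin.cons (a : ℤ) fun i => (t i : ℤ) : Fin (m + 1) → ℤ) ∘
        Sum.elim (fun _ : Fin 1 => (0 : Fin (m + 1))) Fin.succ := by
    funext i
    rcases i with i | i <;> simp
  rw [this]

/-- DPRM with `MvPolynomial`, unknowns in `ℤ`. -/
theorem rePred_mvPolynomial_int {p : ℕ → Prop} (hp : REPred p) :
    ∃ (m : ℕ) (P : MvPolynomial (Fin (m + 1)) ℤ), ∀ a : ℕ,
      p a ↔ ∃ t : Fin m → ℤ, MvPolynomial.eval (Fin.cons (a : ℤ) t) P = 0 := by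
  obtain ⟨m, P, hP⟩ := rePred_mvPolynomial hp
  -- each natural unknown is a sum of four squares
  let e : Fin m × Fin 4 ≃ Fin (m * 4) := finProdFinEquiv
  let s : Fin m → MvPolynomial (Fin (m * 4 + 1)) ℤ := fun i =>
    ∑ j : Fin 4, MvPolynomial.X (e (i, j)).succ ^ 2
  refine ⟨m * 4, MvPolynomial.aeval (Fin.cons (MvPolynomial.X 0) s :
    Fin (m + 1) → MvPolynomial (Fin (m * 4 + 1)) ℤ) P, fun a => ?_⟩
  rw [hP a]
  have key : ∀ t : Fin (m * 4) → ℤ,
      MvPolynomial.eval (Fin.cons (a : ℤ) t : Fin (m * 4 + 1) → ℤ)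
        (MvPolynomial.aeval (Fin.cons (MvPolynomial.X 0) s :
          Fin (m + 1) → MvPolynomial (Fin (m * 4 + 1)) ℤ) P) =
      MvPolynomial.eval (Fin.cons (a : ℤ) fun i => ∑ j : Fin 4, t (e (i, j)) ^ 2) P := by
    intro t
    have h1 : MvPolynomial.eval (Fin.cons (a : ℤ) t : Fin (m * 4 + 1) → ℤ)
        (MvPolynomial.aeval (Fin.cons (MvPolynomial.X 0) s :
          Fin (m + 1) → MvPolynomial (Fin (m * 4 + 1)) ℤ) P) =
        MvPolynomial.eval (fun i => MvPolynomial.eval (Fin.cons (a : ℤ) t : Fin (m * 4 + 1) → ℤ)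
          ((Fin.cons (MvPolynomial.X 0) s :
            Fin (m + 1) → MvPolynomial (Fin (m * 4 + 1)) ℤ) i)) P := by
      rw [← MvPolynomial.bind₁, MvPolynomial.eval, MvPolynomial.eval₂Hom_bind₁]
      rfl
    rw [h1]
    congr 2
    funext i
    refine Fin.cases ?_ (fun i => ?_) i
    · simp
    · simp [s]
  constructor
  · rintro ⟨t, ht⟩
    have h4 : ∀ i, ∃ f : Fin 4 → ℤ, ∑ j, f j ^ 2 = (t i : ℤ) := by
      intro i
      obtain ⟨a, b, c, d, h⟩ := Nat.sum_four_squares (t i)
      refine ⟨![a, b, c, d], ?_⟩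
      rw [← h]
      simp [Fin.sum_univ_four]
    choose f hf using h4
    refine ⟨fun k => f (e.symm k).1 (e.symm k).2, ?_⟩
    rw [key]
    simp only [Equiv.symm_apply_apply, hf]
    exact ht
  · rintro ⟨t, ht⟩
    rw [key] at ht
    refine ⟨fun i => (∑ j : Fin 4, t (e (i, j)) ^ 2).toNat, ?_⟩
    have : (fun i => (((∑ j : Fin 4, t (e (i, j)) ^ 2).toNat : ℕ) : ℤ)) =
        fun i => ∑ j : Fin 4, t (e (i, j)) ^ 2 := by
      funext i
      exact Int.toNat_of_nonneg (Finset.sum_nonneg fun j _ => sq_nonneg _)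
    rw [this]
    exact ht

/-- DPRM with elementary systems, unknowns in `ℕ`. -/
theorem rePred_elem {p : ℕ → Prop} (hp : REPred p) :
    ∃ (N : ℕ) (E : List (ℕ × ℕ × ℕ × ℕ)), 0 < N ∧ (∀ e ∈ E, Below N e) ∧ ∀ a : ℕ,
      p a ↔ ∃ x : ℕ → ℕ, x 0 = a ∧ ∀ e ∈ E, Holds x e := by
  obtain ⟨N, E, hN, hE, h⟩ := dioph_elem (rePred_dioph hp (var_dioph (α := Fin 1) 0))
  refine ⟨N, E, hN, hE, fun a => ?_⟩
  have h1 := h fun _ => a
  simp only [Set.mem_ofPred_eq] at h1
  rw [h1]
  refine exists_congr fun x => and_congr_left fun _ => ?_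
  constructor
  · intro h
    simpa using h 0
  · intro h i
    have : i = 0 := Subsingleton.elim _ _
    subst this
    simpa using h

/-- Equations saying that `x i` is a sum of four squares, using the variables
`M, ..., M + 9`. -/
def foursq (M i : ℕ) : List (ℕ × ℕ × ℕ × ℕ) :=
  [(2, M, M, M + 4), (2, M + 1, M + 1, M + 5), (2, M + 2, M + 2, M + 6), (2, M + 3, M + 3, M + 7),
    (1, M + 4, M + 5, M + 8), (1, M + 6, M + 7, M + 9), (1, M + 8, M + 9, i)]

lemma foursq_nonneg {M i : ℕ} {x : ℕ → ℤ} (h : ∀ e ∈ foursq M i, Holds x e) : 0 ≤ x i := by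
  simp only [foursq, List.mem_cons, List.not_mem_nil, or_false, forall_eq_or_imp, forall_eq,
    holds_one, holds_two] at h
  obtain ⟨h1, h2, h3, h4, h5, h6, h7⟩ := h
  rw [← h7, ← h5, ← h6, ← h1, ← h2, ← h3, ← h4]
  have e1 := mul_self_nonneg (x M)
  have e2 := mul_self_nonneg (x (M + 1))
  have e3 := mul_self_nonneg (x (M + 2))
  have e4 := mul_self_nonneg (x (M + 3))
  linarith

/-- The system over `ℤ` equivalent to a system over `ℕ`. -/
def intSys (N : ℕ) (E : List (ℕ × ℕ × ℕ × ℕ)) : List (ℕ × ℕ × ℕ × ℕ) :=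
  E ++ (List.range N).flatMap fun i => foursq (N + 10 * i) i

theorem intSys_iff {N : ℕ} {E : List (ℕ × ℕ × ℕ × ℕ)} (hE : ∀ e ∈ E, Below N e) (hN : 0 < N)
    (a : ℕ) :
    (∃ x : ℕ → ℤ, x 0 = a ∧ ∀ e ∈ intSys N E, Holds x e) ↔
      ∃ x : ℕ → ℕ, x 0 = a ∧ ∀ e ∈ E, Holds x e := by
  constructor
  · rintro ⟨x, hx0, hx⟩
    have hnn : ∀ i < N, 0 ≤ x i := by
      intro i hi
      apply foursq_nonneg (M := N + 10 * i)
      intro e he
      apply hx
      rw [intSys, List.mem_append, List.mem_flatMap]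
      exact Or.inr ⟨i, List.mem_range.2 hi, he⟩
    refine ⟨fun i => (x i).toNat, ?_, fun e he => ?_⟩
    · show (x 0).toNat = a
      rw [hx0]; simp
    · have h1 := hx e (by rw [intSys, List.mem_append]; exact Or.inl he)
      have hb := hE e he
      obtain ⟨c, i, j, k⟩ := e
      have hi := hnn _ hb.1
      have hj := hnn _ hb.2.1
      have hk := hnn _ hb.2.2
      simp only at hi hj hk
      unfold Holds at h1 ⊢
      simp only at h1 ⊢
      split_ifs at h1 ⊢ with h0 h0'
      · rw [h1]; rfl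
      · omega
      · zify
        rw [Int.toNat_of_nonneg hi, Int.toNat_of_nonneg hj, Int.toNat_of_nonneg hk]
        exact h1
  · rintro ⟨x, hx0, hx⟩
    have h4 : ∀ i, ∃ f : Fin 4 → ℤ, f 0 * f 0 + f 1 * f 1 + (f 2 * f 2 + f 3 * f 3) =
        (x i : ℤ) := by
      intro i
      obtain ⟨a, b, c, d, h⟩ := Nat.sum_four_squares (x i)
      refine ⟨![a, b, c, d], ?_⟩
      show (a : ℤ) * a + b * b + (c * c + d * d) = _
      rw [← h]
      push_cast
      ring
    choose f hf using h4
    -- values of the auxiliary variables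
    let g : ℕ → ℕ → ℤ := fun i r =>
      if r = 0 then f i 0 else if r = 1 then f i 1 else if r = 2 then f i 2 else
      if r = 3 then f i 3 else if r = 4 then f i 0 * f i 0 else if r = 5 then f i 1 * f i 1 else
      if r = 6 then f i 2 * f i 2 else if r = 7 then f i 3 * f i 3 else
      if r = 8 then f i 0 * f i 0 + f i 1 * f i 1 else f i 2 * f i 2 + f i 3 * f i 3
    let y : ℕ → ℤ := fun k => if k < N then (x k : ℤ) else g ((k - N) / 10) ((k - N) % 10)
    have hy : ∀ i r, r < 10 → y (N + 10 * i + r) = g i r := by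
      intro i r hr
      have h1 : ¬ (N + 10 * i + r < N) := by omega
      have h2 : (N + 10 * i + r - N) / 10 = i := by omega
      have h3 : (N + 10 * i + r - N) % 10 = r := by omega
      simp only [y, if_neg h1, h2, h3]
    have hyx : ∀ i < N, y i = x i := fun i hi => by simp only [y, if_pos hi]
    refine ⟨y, ?_, fun e he => ?_⟩
    · rw [hyx 0 hN, hx0]
    · rw [intSys, List.mem_append, List.mem_flatMap] at he
      rcases he with he | ⟨i, hi, he⟩
      · have h1 := hx e he
        have hb := hE e he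
        obtain ⟨c, i, j, k⟩ := e
        have hi := hyx _ hb.1
        have hj := hyx _ hb.2.1
        have hk := hyx _ hb.2.2
        unfold Holds at h1 ⊢
        rw [hi, hj, hk]
        simp only at h1 ⊢
        split_ifs at h1 ⊢ with h0 h0'
        · exact_mod_cast h1
        · exact_mod_cast h1
        · exact_mod_cast h1
      · have hi' : i < N := List.mem_range.1 hi
        have e0 := hy i 0 (by omega)
        have e1 := hy i 1 (by omega)
        have e2 := hy i 2 (by omega)
        have e3 := hy i 3 (by omega)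
        have e4 := hy i 4 (by omega)
        have e5 := hy i 5 (by omega)
        have e6 := hy i 6 (by omega)
        have e7 := hy i 7 (by omega)
        have e8 := hy i 8 (by omega)
        have e9 := hy i 9 (by omega)
        simp only [g, add_zero] at e0 e1 e2 e3 e4 e5 e6 e7 e8 e9
        norm_num at e0 e1 e2 e3 e4 e5 e6 e7 e8 e9
        have hall : ∀ e ∈ foursq (N + 10 * i) i, Holds y e := by
          simp only [foursq, List.mem_cons, List.not_mem_nil, or_false, forall_eq_or_imp,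
            forall_eq, holds_one, holds_two, e0, e1, e2, e3, e4, e5, e6, e7, e8, e9, hyx i hi',
            hf, and_self]
        exact hall e he

/-- DPRM with elementary systems, unknowns in `ℤ`. -/
theorem rePred_elem_int {p : ℕ → Prop} (hp : REPred p) :
    ∃ (E : List (ℕ × ℕ × ℕ × ℕ)), ∀ a : ℕ,
      p a ↔ ∃ x : ℕ → ℤ, x 0 = a ∧ ∀ e ∈ E, Holds x e := by
  obtain ⟨N, E, hN, hE, h⟩ := rePred_elem hp
  exact ⟨intSys N E, fun a => (h a).trans (intSys_iff hE hN a).symm⟩

end Pool.Agent.DPRM
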