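import Pool.Agent.DPRM.Bounded

/-!
Every partial recursive function has a Diophantine graph.
-/

set_option autoImplicit false

open Dioph

namespace Pool.Agent.DPRM

/-- The graph of a partial function is Diophantine. -/
def PD (f : ℕ →. ℕ) : Prop := Dioph {v : Vector3 ℕ 2 | v &1 ∈ f (v &0)}

variable {α : Type}

theorem PD.subst {f : ℕ →. ℕ} (hf : PD f) {g h : (α → ℕ) → ℕ} (dg : DiophFn g)
    (dh : DiophFn h) : Dioph {v : α → ℕ | h v ∈ f (g v)} :=
  comp2 (S := fun a b => b ∈ f a) hf dg dh

theorem PD.of_fn {f : ℕ → ℕ} (hf : DiophFn fun v : Vector3 ℕ 2 => f (v &0)) :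
    PD (f : ℕ →. ℕ) := by
  unfold PD
  refine iff_dioph (eq_dioph hf (var_dioph &1)) fun v => ?_
  rw [PFun.coe_val, Part.mem_some_iff]
  exact eq_comm

/-- Primitive recursion (graph form) via the beta function. -/
theorem mem_prec_iff {f g : ℕ →. ℕ} (a n x : ℕ) :
    x ∈ (Nat.rec (f a) (fun y IH => IH.bind fun i => g (Nat.pair a (Nat.pair y i))) n : Part ℕ) ↔
      ∃ c, Nat.beta c 0 ∈ f a ∧
        (∀ k < n, Nat.beta c (k + 1) ∈ g (Nat.pair a (Nat.pair k (Nat.beta c k)))) ∧
        Nat.beta c n = x := by
  constructor
  · intro hx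
    -- build the list of values
    have key : ∀ n x, x ∈ (Nat.rec (f a)
        (fun y IH => IH.bind fun i => g (Nat.pair a (Nat.pair y i))) n : Part ℕ) →
        ∃ l : List ℕ, ∃ hl : l.length = n + 1, l[0] ∈ f a ∧
          (∀ k (hk : k < n), l[k + 1] ∈ g (Nat.pair a (Nat.pair k l[k]))) ∧ l[n] = x := by
      intro n
      induction n with
      | zero =>
        intro x hx
        exact ⟨[x], rfl, hx, fun k hk => absurd hk (Nat.not_lt_zero _), rfl⟩
      | succ n ih =>
        intro x hx
        obtain ⟨i, hi, hxi⟩ := Part.mem_bind_iff.1 hx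
        obtain ⟨l, hl, h0, hs, hn⟩ := ih i hi
        refine ⟨l ++ [x], by simp [hl], ?_, ?_, ?_⟩
        · rw [List.getElem_append_left (by omega)]
          exact h0
        · intro k hk
          rcases Nat.lt_succ_iff_lt_or_eq.1 hk with hk' | hk'
          · rw [List.getElem_append_left (by omega), List.getElem_append_left (by omega)]
            exact hs k hk'
          · have e1 : (l ++ [x])[k + 1]'(by simp; omega) = x := by
              rw [List.getElem_append_right (by omega)]
              simp
            have e2 : (l ++ [x])[k]'(by simp; omega) = i := by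
              rw [List.getElem_append_left (by omega)]
              subst hk'
              exact hn
            rw [e1, e2, hk']
            exact hxi
        · rw [List.getElem_append_right (by omega)]
          simp
    obtain ⟨l, hl, h0, hs, hn⟩ := key n x hx
    have hb : ∀ k (hk : k < l.length), Nat.beta (Nat.unbeta l) k = l[k] := fun k hk =>
      Nat.beta_unbeta_coe l ⟨k, hk⟩
    refine ⟨Nat.unbeta l, ?_, ?_, ?_⟩
    · rw [hb 0 (by omega)]; exact h0
    · intro k hk
      rw [hb (k + 1) (by omega), hb k (by omega)]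
      exact hs k hk
    · rw [hb n (by omega)]; exact hn
  · rintro ⟨c, h0, hs, rfl⟩
    have key : ∀ k, k ≤ n → Nat.beta c k ∈ (Nat.rec (f a)
        (fun y IH => IH.bind fun i => g (Nat.pair a (Nat.pair y i))) k : Part ℕ) := by
      intro k
      induction k with
      | zero => intro _; exact h0
      | succ k ih =>
        intro hk
        exact Part.mem_bind_iff.2 ⟨_, ih (by omega), hs k (by omega)⟩
    exact key n le_rfl

/-- **Every partial recursive function has a Diophantine graph.** -/
theorem partrec_dioph {f : ℕ →. ℕ} (hf : Nat.Partrec f) : PD f := by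
  induction hf with
  | zero =>
    unfold PD
    refine iff_dioph (eq_dioph (var_dioph &1) (const_fn 0)) fun v => ?_
    exact Part.mem_some_iff
  | succ => exact PD.of_fn (add_dioph (var_dioph &0) (const_fn 1))
  | left => exact PD.of_fn (unpair_fst_dioph (var_dioph &0))
  | right => exact PD.of_fn (unpair_snd_dioph (var_dioph &0))
  | @pair f g _ _ hf hg =>
    unfold PD
    refine iff_dioph (exists_dioph (P := fun (v : Vector3 ℕ 2) a => ∃ y,
        (a ∈ f (v &0) ∧ y ∈ g (v &0)) ∧ Nat.pair a y = v &1)
      (exists_dioph (P := fun w y =>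
        (w none ∈ f (w (some &0)) ∧ y ∈ g (w (some &0))) ∧
          Nat.pair (w none) y = w (some &1)) (and_dioph (and_dioph
          (hf.subst (var_dioph (some (some &0))) (var_dioph (some none)))
          (hg.subst (var_dioph (some (some &0))) (var_dioph none)))
          (eq_dioph (pair_dioph (var_dioph (some none)) (var_dioph none))
            (var_dioph (some (some &1))))))) fun v => ?_
    constructor
    · intro h
      simp only [Seq.seq, Part.bind_eq_bind, Part.map_eq_map, Part.mem_bind_iff,
        Part.mem_map_iff] at h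
      obtain ⟨h', ⟨a, ha, rfl⟩, b, hb, hab⟩ := h
      exact ⟨a, b, ⟨ha, hb⟩, hab⟩
    · rintro ⟨a, b, ⟨ha, hb⟩, hab⟩
      simp only [Seq.seq, Part.bind_eq_bind, Part.map_eq_map, Part.mem_bind_iff,
        Part.mem_map_iff]
      exact ⟨_, ⟨a, ha, rfl⟩, b, hb, hab⟩
  | @comp f g _ _ hf hg =>
    unfold PD
    refine iff_dioph (exists_dioph (P := fun w y => y ∈ g (w &0) ∧ w &1 ∈ f y)
      (and_dioph (hg.subst (var_dioph _) (var_dioph _))
        (hf.subst (var_dioph _) (var_dioph _)))) fun v => ?_
    exact Part.mem_bind_iff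
  | @prec f g _ _ hf hg =>
    unfold PD
    refine iff_dioph (exists_dioph (P := fun (w : Vector3 ℕ 2 ) c =>
        Nat.beta c 0 ∈ f (Nat.unpair (w &0)).1 ∧
        (∀ k < (Nat.unpair (w &0)).2, Nat.beta c (k + 1) ∈
          g (Nat.pair (Nat.unpair (w &0)).1 (Nat.pair k (Nat.beta c k)))) ∧
        Nat.beta c (Nat.unpair (w &0)).2 = w &1)
      (and_dioph ?_ (and_dioph (ball_dioph ?_ ?_) ?_))) fun v => ?_
    · exact hf.subst (unpair_fst_dioph (var_dioph _)) (beta_dioph (var_dioph _) (const_fn 0))
    · exact unpair_snd_dioph (var_dioph _)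
    · exact hg.subst (pair_dioph (unpair_fst_dioph (var_dioph (some (some &0))))
        (pair_dioph (var_dioph none) (beta_dioph (var_dioph (some none)) (var_dioph none))))
        (beta_dioph (var_dioph (some none)) (add_dioph (var_dioph none) (const_fn 1)))
    · exact eq_dioph (beta_dioph (var_dioph _) (unpair_snd_dioph (var_dioph _))) (var_dioph _)
    · exact mem_prec_iff _ _ _
  | @rfind f _ hf =>
    unfold PD
    refine iff_dioph (and_dioph (hf.subst (pair_dioph (var_dioph &0) (var_dioph &1))
      (const_fn 0)) (ball_dioph (P := fun (w : Vector3 ℕ 2) k => ∃ y, y + 1 ∈ f (Nat.pair (w &0) k))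
        (var_dioph &1) (exists_dioph (hf.subst (pair_dioph (var_dioph (some (some &0)))
          (var_dioph (some none))) (add_dioph (var_dioph none) (const_fn 1)))))) fun v => ?_
    refine Nat.mem_rfind.trans (and_congr ?_ (forall_congr' fun k => forall_congr' fun _ => ?_))
    · simp only [Part.map_eq_map, Part.mem_map_iff]
      constructor
      · rintro ⟨a, ha, h0⟩
        have : a = 0 := by simpa using h0
        rwa [this] at ha
      · intro h
        exact ⟨0, h, by simp⟩
    · simp only [Part.map_eq_map, Part.mem_map_iff]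
      constructor
      · rintro ⟨a, ha, h0⟩
        have h1 : a ≠ 0 := by simpa using h0
        obtain ⟨b, rfl⟩ := Nat.exists_eq_succ_of_ne_zero h1
        exact ⟨b, ha⟩
      · rintro ⟨b, hb⟩
        exact ⟨b + 1, hb, by simp⟩

end Pool.Agent.DPRM
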