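import Pool.Agent.DPRM.Main

/-!
Undecidability corollaries of DPRM.
-/

set_option autoImplicit false

open Nat.Partrec

namespace Pool.Agent.DPRM

/-- The halting set. -/
def K (n : ℕ) : Prop := (Code.eval (Denumerable.ofNat Code n) 0).Dom

theorem rePred_K : REPred K := by
  have h : REPred fun c : Code => (Code.eval c 0).Dom := ComputablePred.halting_problem_re 0
  exact Partrec.comp (f := fun c : Code => Part.assert ((Code.eval c 0).Dom) fun _ => Part.some ())
    h (Computable.ofNat Code)

theorem not_computable_K : ¬ ComputablePred K := by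
  intro h
  apply ComputablePred.halting_problem 0
  refine ComputablePred.computable_of_manyOneReducible
    (⟨Encodable.encode, Computable.encode, fun c => ?_⟩ : ManyOneReducible _ K) h
  unfold K
  rw [Denumerable.ofNat_encode]

/-- A fixed integer polynomial with one parameter whose solvability in naturals is undecidable. -/
theorem exists_undecidable_mvPolynomial :
    ∃ (m : ℕ) (P : MvPolynomial (Fin (m + 1)) ℤ), ¬ ComputablePred fun a : ℕ =>
      ∃ t : Fin m → ℕ, MvPolynomial.eval (Fin.cons (a : ℤ) fun i => (t i : ℤ)) P = 0 := by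
  obtain ⟨m, P, hP⟩ := rePred_mvPolynomial rePred_K
  refine ⟨m, P, fun h => not_computable_K ?_⟩
  exact h.of_eq fun a => (hP a).symm

/-- A fixed integer polynomial with one parameter whose solvability in integers is undecidable. -/
theorem exists_undecidable_mvPolynomial_int :
    ∃ (m : ℕ) (P : MvPolynomial (Fin (m + 1)) ℤ), ¬ ComputablePred fun a : ℕ =>
      ∃ t : Fin m → ℤ, MvPolynomial.eval (Fin.cons (a : ℤ) t) P = 0 := by
  obtain ⟨m, P, hP⟩ := rePred_mvPolynomial_int rePred_K
  refine ⟨m, P, fun h => not_computable_K ?_⟩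
  exact h.of_eq fun a => (hP a).symm

/-- The system `x 0 = a`, using fresh variables from `N` on: `x N = 1`, `x (N+1) = 0`,
`x (N + 2 + i) = x (N + 1 + i) + x N`, `x 0 + x (N+1) = x (N+1+a)`. -/
def numeral (N a : ℕ) : List (ℕ × ℕ × ℕ × ℕ) :=
  (0, N, N, N) :: (1, N + 1, N + 1, N + 1) :: (1, 0, N + 1, N + 1 + a) ::
    (List.range a).map fun i => (1, N + 1 + i, N, N + 2 + i)

lemma numeral_val {R : Type} [CommRing R] {x : ℕ → R} {N a : ℕ}
    (h : ∀ e ∈ numeral N a, Holds x e) : x 0 = a := by
  have h1 := h (0, N, N, N) (by simp [numeral])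
  have h2 := h (1, N + 1, N + 1, N + 1) (by simp [numeral])
  have h3 := h (1, 0, N + 1, N + 1 + a) (by simp [numeral])
  rw [holds_zero] at h1
  rw [holds_one] at h2 h3
  have h0 : x (N + 1) = 0 := by simpa using h2
  have key : ∀ i ≤ a, x (N + 1 + i) = i := by
    intro i
    induction i with
    | zero => intro _; simpa using h0
    | succ i ih =>
      intro hi
      have h4 := h (1, N + 1 + i, N, N + 2 + i) (by
        simp only [numeral, List.mem_cons, List.mem_map, List.mem_range]
        exact Or.inr (Or.inr (Or.inr ⟨i, by omega, rfl⟩)))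
      rw [holds_one, ih (by omega), h1] at h4
      have : N + 1 + (i + 1) = N + 2 + i := by omega
      rw [this, ← h4]
      push_cast
      rfl
  rw [h0, add_zero, key a le_rfl] at h3
  exact h3

/-- The same over the naturals. -/
lemma numeral_val_nat {x : ℕ → ℕ} {N a : ℕ} (h : ∀ e ∈ numeral N a, Holds x e) : x 0 = a := by
  have h' : ∀ e ∈ numeral N a, Holds (fun i => (x i : ℤ)) e := by
    intro e he
    have := h e he
    unfold Holds at this ⊢
    beta_reduce
    split_ifs at this ⊢
    · exact_mod_cast this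
    · exact_mod_cast this
    · exact_mod_cast this
  have := numeral_val h'
  exact_mod_cast this

lemma numeral_sat {R : Type} [CommSemiring R] {x : ℕ → R} {N a : ℕ} (hN : 0 < N) (hx : x 0 = a) :
    ∃ y : ℕ → R, (∀ i < N, y i = x i) ∧ ∀ e ∈ numeral N a, Holds y e := by
  refine ⟨fun k => if k < N then x k else if k = N then 1 else ((k - (N + 1) : ℕ) : R),
    fun i hi => by simp [hi], ?_⟩
  intro e he
  simp only [numeral, List.mem_cons, List.mem_map, List.mem_range] at he
  rcases he with rfl | rfl | rfl | ⟨i, hi, rfl⟩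
  · simp
  · rw [holds_one]
    have h1 : ¬ (N + 1 < N) := by omega
    have h2 : N + 1 ≠ N := by omega
    simp [h1]
  · rw [holds_one]
    have h1 : ¬ (N + 1 < N) := by omega
    have h3 : ¬ (N + 1 + a < N) := by omega
    have h4 : N + 1 + a ≠ N := by omega
    simp [h1, h3, h4, hN, hx]
  · rw [holds_one]
    have h1 : ¬ (N + 1 + i < N) := by omega
    have h2 : N + 1 + i ≠ N := by omega
    have h3 : ¬ (N + 2 + i < N) := by omega
    have h4 : N + 2 + i ≠ N := by omega
    have h5 : N + 1 + i - (N + 1) = i := by omega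
    have h6 : N + 2 + i - (N + 1) = i + 1 := by omega
    simp only [if_neg h1, if_neg h2, if_neg h3, if_neg h4, h5, h6, lt_irrefl, if_false, if_true]
    push_cast
    rfl

theorem computable_numeral (N : ℕ) (E : List (ℕ × ℕ × ℕ × ℕ)) :
    Computable fun a => numeral N a ++ E := by
  apply Primrec.to_comp
  apply Primrec.list_append.comp _ (Primrec.const E)
  unfold numeral
  refine Primrec.list_cons.comp (Primrec.const _) (Primrec.list_cons.comp (Primrec.const _)
    (Primrec.list_cons.comp ?_ ?_))
  · exact (Primrec.const 1).pair ((Primrec.const 0).pair ((Primrec.const (N + 1)).pair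
      (Primrec.nat_add.comp (Primrec.const (N + 1)) Primrec.id)))
  · refine Primrec.list_map Primrec.list_range ?_
    show Primrec₂ fun (_ : ℕ) (i : ℕ) => ((1, N + 1 + i, N, N + 2 + i) : ℕ × ℕ × ℕ × ℕ)
    have hi : Primrec fun q : ℕ × ℕ => q.2 := Primrec.snd
    exact (Primrec.const 1).pair ((Primrec.nat_add.comp (Primrec.const (N + 1)) hi).pair
      ((Primrec.const N).pair (Primrec.nat_add.comp (Primrec.const (N + 2)) hi)))

/-- **Undecidability of elementary systems over the naturals.** -/
theorem elem_undecidable :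
    ¬ ComputablePred fun S : List (ℕ × ℕ × ℕ × ℕ) => ∃ x : ℕ → ℕ, ∀ e ∈ S, Holds x e := by
  intro h
  apply not_computable_K
  obtain ⟨N, E, hN, hE, hK⟩ := rePred_elem rePred_K
  refine ComputablePred.computable_of_manyOneReducible
    (⟨fun a => numeral N a ++ E, computable_numeral N E, fun a => ?_⟩ : ManyOneReducible K _) h
  rw [hK a]
  constructor
  · rintro ⟨x, hx0, hx⟩
    obtain ⟨y, hy, hyn⟩ := numeral_sat (x := x) (a := a) hN (by simpa using hx0)
    refine ⟨y, fun e he => ?_⟩
    rcases List.mem_append.1 he with he | he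
    · exact hyn e he
    · exact (Holds.congr (hE e he) hy).2 (hx e he)
  · rintro ⟨x, hx⟩
    exact ⟨x, numeral_val_nat fun e he => hx e (List.mem_append.2 (Or.inl he)),
      fun e he => hx e (List.mem_append.2 (Or.inr he))⟩

lemma exists_below (E : List (ℕ × ℕ × ℕ × ℕ)) : ∃ N, 0 < N ∧ ∀ e ∈ E, Below N e := by
  induction E with
  | nil => exact ⟨1, one_pos, by simp⟩
  | cons e E ih =>
    obtain ⟨N, hN, h⟩ := ih
    refine ⟨N + (e.2.1 + e.2.2.1 + e.2.2.2 + 1), by omega, ?_⟩
    intro f hf
    rcases List.mem_cons.1 hf with rfl | hf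
    · exact ⟨by omega, by omega, by omega⟩
    · exact (h f hf).mono (by omega)

/-- **Undecidability of elementary systems over the integers.** -/
theorem elem_undecidable_int :
    ¬ ComputablePred fun S : List (ℕ × ℕ × ℕ × ℕ) => ∃ x : ℕ → ℤ, ∀ e ∈ S, Holds x e := by
  intro h
  apply not_computable_K
  obtain ⟨E, hK⟩ := rePred_elem_int rePred_K
  obtain ⟨N, hN, hE⟩ := exists_below E
  refine ComputablePred.computable_of_manyOneReducible
    (⟨fun a => numeral N a ++ E, computable_numeral N E, fun a => ?_⟩ : ManyOneReducible K _) h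
  rw [hK a]
  constructor
  · rintro ⟨x, hx0, hx⟩
    obtain ⟨y, hy, hyn⟩ := numeral_sat (x := x) (a := a) hN (by simpa using hx0)
    refine ⟨y, fun e he => ?_⟩
    rcases List.mem_append.1 he with he | he
    · exact hyn e he
    · exact (Holds.congr (hE e he) hy).2 (hx e he)
  · rintro ⟨x, hx⟩
    exact ⟨x, by simpa using numeral_val fun e he => hx e (List.mem_append.2 (Or.inl he)),
      fun e he => hx e (List.mem_append.2 (Or.inr he))⟩

end Pool.Agent.DPRM
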